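import Pool.Agent.MVS.Stmts
import Pool.Agent.Helper9_RF.Open

/-!
Row FRM of the squad MVS: orthonormal frames of the normal bundle of the fixed set.
-/

noncomputable section

open scoped ContDiff Topology RealInnerProductSpace
open Set

namespace Pool.Agent.MVS.H77

open Pool.Agent.RF

theorem pP_apply (κ : Finset (Fin 5)) (x : E5) : pP κ x = ∑ i ∈ κ, x i • eb i := by
  unfold pP
  rw [_root_.sum_apply]
  rfl

theorem eb_coord (i j : Fin 5) : (eb i : E5) j = if j = i then 1 else 0 := by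
  simp [eb]

theorem pP_coord (κ : Finset (Fin 5)) (x : E5) (j : Fin 5) :
    (pP κ x) j = if j ∈ κ then x j else 0 := by
  have h : (pP κ x) j = (EuclideanSpace.proj j : E5 →L[ℝ] ℝ) (pP κ x) := rfl
  rw [h, pP_apply, map_sum]
  have h2 : ∀ i ∈ κ, (EuclideanSpace.proj j : E5 →L[ℝ] ℝ) (x i • eb i) =
      if j = i then x i else 0 := by
    intro i _
    show (x i • (eb i : E5)) j = _
    show x i * (eb i : E5) j = _
    rw [eb_coord]
    split_ifs <;> simp
  rw [Finset.sum_congr rfl h2, Finset.sum_ite_eq]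

theorem pN_coord (κ : Finset (Fin 5)) (x : E5) (j : Fin 5) :
    (pN κ x) j = if j ∈ κ then 0 else x j := by
  unfold pN
  rw [pP_coord]
  by_cases h : j ∈ κ <;> simp [h]

theorem ext5 {x y : E5} (h : ∀ j, x j = y j) : x = y := by
  ext j
  exact h j

theorem pN_zero {κ : Finset (Fin 5)} {x : E5} : pN κ x = 0 ↔ ∀ j, j ∉ κ → x j = 0 := by
  constructor
  · intro h j hj
    have h1 := pN_coord κ x j
    rw [h, if_neg hj] at h1
    exact h1.symm
  · intro h
    refine ext5 fun j => ?_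
    rw [pN_coord]
    split_ifs with hj
    · rfl
    · exact h j hj

theorem pP_zero {κ : Finset (Fin 5)} {x : E5} : pP κ x = 0 ↔ ∀ j, j ∈ κ → x j = 0 := by
  constructor
  · intro h j hj
    have h1 := pP_coord κ x j
    rw [h, if_pos hj] at h1
    exact h1.symm
  · intro h
    refine ext5 fun j => ?_
    rw [pP_coord]
    split_ifs with hj
    · exact h j hj
    · rfl

theorem pN_self {κ : Finset (Fin 5)} {x : E5} (h : pP κ x = 0) : pN κ x = x := by
  refine ext5 fun j => ?_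
  rw [pN_coord]
  split_ifs with hj
  · exact (pP_zero.mp h j hj).symm
  · rfl

theorem pP_self {κ : Finset (Fin 5)} {x : E5} (h : pN κ x = 0) : pP κ x = x := by
  refine ext5 fun j => ?_
  rw [pP_coord]
  split_ifs with hj
  · rfl
  · exact (pN_zero.mp h j hj).symm

theorem pN_pP (κ : Finset (Fin 5)) (x : E5) : pN κ (pP κ x) = 0 := by
  rw [pN_zero]
  intro j hj
  rw [pP_coord, if_neg hj]

theorem inner_coord (x y : E5) : (⟪x, y⟫ : ℝ) = ∑ j : Fin 5, x j * y j := by
  rw [PiLp.inner_apply]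
  refine Finset.sum_congr rfl fun j _ => ?_
  simp [mul_comm]

/-- the case of a plane -/
theorem frm2 {G : E5 → Bil E5} (hG : IsCyl G) {κ : Finset (Fin 5)} {i j : Fin 5} (hij : i ≠ j)
    (hκ : κ = {i, j})
    (h1 : ∀ σ, pP κ σ = 0 → σ ≠ 0 → G σ (eb i) (eb i) = G σ (eb j) (eb j))
    (h2 : ∀ σ, pP κ σ = 0 → σ ≠ 0 → G σ (eb i) (eb j) = 0) :
    ∃ Q : E5 → (E5 →L[ℝ] E5), IsFrm G κ Q := by
  have hebne : (eb i : E5) ≠ 0 := by
    intro h
    have h3 := eb_coord i i
    rw [h] at h3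
    simp at h3
  have hpos : ∀ x : E5, x ≠ 0 → 0 < G x (eb i) (eb i) := fun x hx => hG.metric.pos x hx _ hebne
  refine ⟨fun z => (Real.sqrt (G (pN κ z) (eb i) (eb i)))⁻¹ • pP κ, ?_, ?_, ?_, ?_⟩
  · have s1 : ContDiffOn ℝ ∞ (fun z : E5 => G (pN κ z)) {z | pN κ z ≠ 0} :=
      hG.metric.smooth.comp (pN κ).contDiff.contDiffOn fun z hz => hz
    have s2 : ContDiffOn ℝ ∞ (fun z : E5 => G (pN κ z) (eb i) (eb i)) {z | pN κ z ≠ 0} :=
      (s1.clm_apply contDiffOn_const).clm_apply contDiffOn_const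
    have s3 := s2.sqrt fun z hz => (hpos _ hz).ne'
    have s4 := s3.inv fun z hz => (Real.sqrt_pos.mpr (hpos _ hz)).ne'
    exact s4.smul contDiffOn_const
  · intro σ _ _ y _
    show pN κ ((Real.sqrt (G (pN κ σ) (eb i) (eb i)))⁻¹ • pP κ y) = 0
    rw [map_smul, pN_pP, smul_zero]
  · intro σ hσ hσ0 y y' hy hy'
    show G σ ((Real.sqrt (G (pN κ σ) (eb i) (eb i)))⁻¹ • pP κ y)
      ((Real.sqrt (G (pN κ σ) (eb i) (eb i)))⁻¹ • pP κ y') = _
    rw [pN_self hσ, pP_self hy, pP_self hy']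
    have hg := hpos σ hσ0
    have hexp : ∀ u : E5, pN κ u = 0 → u = u i • eb i + u j • eb j := by
      intro u hu
      conv_lhs => rw [← pP_self hu]
      rw [pP_apply, hκ, Finset.sum_pair hij]
    have hin : (⟪y, y'⟫ : ℝ) = y i * y' i + y j * y' j := by
      rw [inner_coord]
      rw [← Finset.sum_subset (Finset.subset_univ ({i, j} : Finset (Fin 5)))]
      · rw [Finset.sum_pair hij]
      · intro l _ hl
        rw [pN_zero.mp hy l (by rw [hκ]; exact hl), zero_mul]
    have hb : G σ y y' = (y i * y' i + y j * y' j) * G σ (eb i) (eb i) := by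
      have e21 : G σ (eb j) (eb i) = 0 := by
        rw [hG.metric.symm σ hσ0]; exact h2 σ hσ hσ0
      conv_lhs => rw [hexp y hy, hexp y' hy']
      simp only [map_add, map_smul, _root_.add_apply, _root_.smul_apply, smul_eq_mul]
      rw [h2 σ hσ hσ0, e21, ← h1 σ hσ hσ0]
      ring
    rw [map_smul, smul_eq_mul, map_smul (G σ), _root_.smul_apply, smul_eq_mul, hb, hin]
    have hs := Real.mul_self_sqrt hg.le
    have hs0 : Real.sqrt (G σ (eb i) (eb i)) ≠ 0 := (Real.sqrt_pos.mpr hg).ne'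
    field_simp
    rw [sq, hs]
    ring
  · intro c hc σ hσ hσ0 y _
    show (Real.sqrt (G (pN κ (c • σ)) (eb i) (eb i)))⁻¹ • pP κ y =
      c • ((Real.sqrt (G (pN κ σ) (eb i) (eb i)))⁻¹ • pP κ y)
    rw [map_smul, pN_self hσ, hG.homog c hc σ hσ0, smul_smul]
    congr 1
    rw [_root_.smul_apply, _root_.smul_apply, smul_eq_mul,
      Real.sqrt_mul (by positivity), Real.sqrt_inv, Real.sqrt_sq hc.le, mul_inv, inv_inv]

/-- an orthonormal frame of the span of `e_0, …, e_3` -/
theorem frame4 (B : Bil E5) (hs : ∀ v w, B v w = B w v) (hp : ∀ v, v ≠ 0 → 0 < B v v) :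
    ∃ T : E5 →L[ℝ] E5, (∀ y, pN ({0, 1, 2, 3} : Finset (Fin 5)) (T y) = 0) ∧
      ∀ y y', pN ({0, 1, 2, 3} : Finset (Fin 5)) y = 0 →
        pN ({0, 1, 2, 3} : Finset (Fin 5)) y' = 0 → B (T y) (T y') = ⟪y, y'⟫ := by
  have hli : LinearIndependent ℝ (fun l : Fin 4 => (eb l.castSucc : E5)) := by
    rw [Fintype.linearIndependent_iff]
    intro g hg l
    have h1 := congrArg (EuclideanSpace.proj l.castSucc : E5 →L[ℝ] ℝ) hg
    rw [map_sum, map_zero] at h1
    rw [Finset.sum_eq_single l] at h1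
    · have h2 : (EuclideanSpace.proj l.castSucc : E5 →L[ℝ] ℝ) (g l • (eb l.castSucc : E5)) =
          g l * (eb l.castSucc : E5) l.castSucc := rfl
      rw [h2, eb_coord, if_pos rfl, mul_one] at h1
      exact h1
    · intro m _ hm
      have h2 : (EuclideanSpace.proj l.castSucc : E5 →L[ℝ] ℝ) (g m • (eb m.castSucc : E5)) =
          g m * (eb m.castSucc : E5) l.castSucc := rfl
      rw [h2, eb_coord, if_neg, mul_zero]
      intro h
      exact hm (Fin.castSucc_injective _ h).symm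
    · intro h
      exact absurd (Finset.mem_univ _) h
  obtain ⟨e', -, D, ho, -, hD, -⟩ := Pool.Agent.RF.H9O.exists_ortho B hs hp
    (fun l : Fin 4 => (eb l.castSucc : E5)) hli
  refine ⟨∑ l : Fin 4, (EuclideanSpace.proj l.castSucc : E5 →L[ℝ] ℝ).smulRight (e' l), ?_, ?_⟩
  · have h4 : ∀ l, pN ({0, 1, 2, 3} : Finset (Fin 5)) (e' l) = 0 := by
      intro l
      rw [hD, map_sum]
      refine Finset.sum_eq_zero fun m _ => ?_
      rw [map_smul]
      have : pN ({0, 1, 2, 3} : Finset (Fin 5)) (eb m.castSucc) = 0 := by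
        rw [pN_zero]
        intro j hj
        rw [eb_coord, if_neg]
        rintro rfl
        apply hj
        fin_cases m <;> simp
      rw [this, smul_zero]
    intro y
    rw [_root_.sum_apply, map_sum]
    refine Finset.sum_eq_zero fun l _ => ?_
    show pN _ (y l.castSucc • e' l) = 0
    rw [map_smul, h4, smul_zero]
  · intro y y' hy hy'
    have hT : ∀ u : E5, (∑ l : Fin 4, (EuclideanSpace.proj l.castSucc : E5 →L[ℝ] ℝ).smulRight
        (e' l)) u = ∑ l : Fin 4, u l.castSucc • e' l := by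
      intro u
      rw [_root_.sum_apply]
      rfl
    have hlast : y (Fin.last 4) = 0 := pN_zero.mp hy _ (by decide)
    have hin : (⟪y, y'⟫ : ℝ) = ∑ l : Fin 4, y l.castSucc * y' l.castSucc := by
      rw [inner_coord, Fin.sum_univ_castSucc, hlast, zero_mul, add_zero]
    rw [hT, hT, map_sum B, _root_.sum_apply, hin]
    refine Finset.sum_congr rfl fun l _ => ?_
    rw [map_smul, _root_.smul_apply, map_sum, smul_eq_mul]
    congr 1
    rw [Finset.sum_eq_single l]
    · rw [map_smul, ho l l, if_pos rfl, smul_eq_mul, mul_one]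
    · intro m _ hm
      rw [map_smul, ho l m, if_neg (Ne.symm hm), smul_eq_mul, mul_zero]
    · intro h
      exact absurd (Finset.mem_univ _) h

/-- the case of four rotated coordinates -/
theorem frm4 {G : E5 → Bil E5} (hG : IsCyl G) :
    ∃ Q : E5 → (E5 →L[ℝ] E5), IsFrm G {0, 1, 2, 3} Q := by
  have heb : (eb 4 : E5) ≠ 0 := by
    intro h
    have h3 := eb_coord 4 4
    rw [h] at h3
    simp at h3
  have hneb : -(eb 4 : E5) ≠ 0 := neg_ne_zero.mpr heb
  obtain ⟨T1, m1, o1⟩ := frame4 (G (eb 4)) (hG.metric.symm _ heb) (hG.metric.pos _ heb)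
  obtain ⟨T2, m2, o2⟩ := frame4 (G (-(eb 4))) (hG.metric.symm _ hneb) (hG.metric.pos _ hneb)
  -- the normal space is the line of `e_4`
  have hN : ∀ σ : E5, pP ({0, 1, 2, 3} : Finset (Fin 5)) σ = 0 → σ = σ 4 • eb 4 := by
    intro σ hσ
    refine ext5 fun j => ?_
    show σ j = σ 4 * (eb 4 : E5) j
    rw [eb_coord]
    by_cases hj : j = 4
    · rw [if_pos hj, mul_one, hj]
    · rw [if_neg hj, mul_zero]
      refine pP_zero.mp hσ j ?_
      revert hj
      fin_cases j <;> decide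
  have hN0 : ∀ z : E5, pN ({0, 1, 2, 3} : Finset (Fin 5)) z ≠ 0 ↔ z 4 ≠ 0 := by
    intro z
    rw [not_iff_not, pN_zero]
    constructor
    · intro h
      exact h 4 (by decide)
    · intro h j hj
      have : j = 4 := by
        revert hj
        fin_cases j <;> decide
      rw [this]; exact h
  refine ⟨fun z => ‖pN ({0, 1, 2, 3} : Finset (Fin 5)) z‖ •
    (if 0 < z 4 then T1 else T2), ?_, ?_, ?_, ?_⟩
  · intro z hz
    have hz4 : z 4 ≠ 0 := (hN0 z).mp hz
    refine ContDiffAt.contDiffWithinAt ?_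
    have hn : ContDiffAt ℝ ∞ (fun z : E5 => ‖pN ({0, 1, 2, 3} : Finset (Fin 5)) z‖) z :=
      ContDiffAt.norm ℝ (pN ({0, 1, 2, 3} : Finset (Fin 5))).contDiff.contDiffAt hz
    have hc : Continuous fun w : E5 => w 4 :=
      (EuclideanSpace.proj 4 : E5 →L[ℝ] ℝ).continuous
    rcases lt_or_gt_of_ne hz4 with h | h
    · have hev : ∀ᶠ w : E5 in 𝓝 z, w 4 < 0 := hc.continuousAt.eventually_lt_const h
      refine (hn.smul (contDiffAt_const (c := T2))).congr_of_eventuallyEq ?_
      filter_upwards [hev] with w hw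
      rw [if_neg (not_lt.mpr hw.le)]
      rfl
    · have hev : ∀ᶠ w : E5 in 𝓝 z, 0 < w 4 := hc.continuousAt.eventually_const_lt h
      refine (hn.smul (contDiffAt_const (c := T1))).congr_of_eventuallyEq ?_
      filter_upwards [hev] with w hw
      rw [if_pos hw]
      rfl
  · intro σ _ _ y _
    show pN ({0, 1, 2, 3} : Finset (Fin 5)) (‖pN ({0, 1, 2, 3} : Finset (Fin 5)) σ‖ •
      (if 0 < σ 4 then T1 else T2) y) = 0
    rw [map_smul]
    split_ifs
    · rw [m1, smul_zero]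
    · rw [m2, smul_zero]
  · intro σ hσ hσ0 y y' hy hy'
    show G σ (‖pN ({0, 1, 2, 3} : Finset (Fin 5)) σ‖ • (if 0 < σ 4 then T1 else T2) y)
      (‖pN ({0, 1, 2, 3} : Finset (Fin 5)) σ‖ • (if 0 < σ 4 then T1 else T2) y') = _
    rw [pN_self hσ]
    have hσ4 : σ 4 ≠ 0 := by
      intro h
      apply hσ0
      rw [hN σ hσ, h, zero_smul]
    have hnorm : ‖σ‖ = |σ 4| := by
      conv_lhs => rw [hN σ hσ]
      rw [norm_smul, Real.norm_eq_abs]
      have : ‖(eb 4 : E5)‖ = 1 := by simp [eb]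
      rw [this, mul_one]
    rw [map_smul, smul_eq_mul, map_smul (G σ), _root_.smul_apply, smul_eq_mul, hnorm]
    rcases lt_or_gt_of_ne hσ4 with h | h
    · rw [if_neg (not_lt.mpr h.le)]
      have hG4 : G σ = ((-(σ 4)) ^ 2)⁻¹ • G (-(eb 4)) := by
        rw [← hG.homog (-(σ 4)) (by linarith) _ hneb]
        congr 1
        rw [neg_smul, smul_neg, neg_neg]
        exact hN σ hσ
      rw [hG4, _root_.smul_apply, _root_.smul_apply, smul_eq_mul, o2 y y' hy hy', abs_of_neg h]
      have : -(σ 4) ≠ 0 := neg_ne_zero.mpr hσ4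
      field_simp
    · rw [if_pos h]
      have hG4 : G σ = ((σ 4) ^ 2)⁻¹ • G (eb 4) := by
        rw [← hG.homog (σ 4) h _ heb]
        congr 1
        exact hN σ hσ
      rw [hG4, _root_.smul_apply, _root_.smul_apply, smul_eq_mul, o1 y y' hy hy', abs_of_pos h]
      field_simp
  · intro c hc σ hσ hσ0 y _
    show ‖pN ({0, 1, 2, 3} : Finset (Fin 5)) (c • σ)‖ • (if 0 < (c • σ) 4 then T1 else T2) y =
      c • (‖pN ({0, 1, 2, 3} : Finset (Fin 5)) σ‖ • (if 0 < σ 4 then T1 else T2) y)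
    have h4 : (c • σ) 4 = c * σ 4 := rfl
    rw [map_smul, norm_smul, Real.norm_eq_abs, abs_of_pos hc, h4, smul_smul]
    congr 2
    by_cases h : 0 < σ 4
    · rw [if_pos h, if_pos (mul_pos hc h)]
    · rw [if_neg h, if_neg]
      intro h'
      exact h (pos_of_mul_pos_right h' hc.le)

theorem Rt_coord (a b t : ℝ) (x : E5) (j : Fin 5) : (Rt a b t x) j =
    Real.cos (a * t) * (x 0 * (eb 0 : E5) j + x 1 * (eb 1 : E5) j) +
    Real.sin (a * t) * (x 0 * (eb 1 : E5) j - x 1 * (eb 0 : E5) j) +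
    Real.cos (b * t) * (x 2 * (eb 2 : E5) j + x 3 * (eb 3 : E5) j) +
    Real.sin (b * t) * (x 2 * (eb 3 : E5) j - x 3 * (eb 2 : E5) j) + x 4 * (eb 4 : E5) j := rfl

theorem frm : FrmStatement := by
  intro G κ a b hS
  rcases hS.cs with ⟨hκ, -, -⟩ | ⟨hκ, ha, hb⟩ | ⟨hκ, ha, hb⟩
  · subst hκ
    exact frm4 hS.cyl
  · -- rotation by a right angle in the (0,1)-plane
    have hc : Real.cos (a * (Real.pi / 2 / a)) = 0 := by
      rw [mul_div_cancel₀ _ ha, Real.cos_pi_div_two]
    have hs : Real.sin (a * (Real.pi / 2 / a)) = 1 := by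
      rw [mul_div_cancel₀ _ ha, Real.sin_pi_div_two]
    have hfix : ∀ σ : E5, pP κ σ = 0 → Rt a b (Real.pi / 2 / a) σ = σ := by
      intro σ hσ
      have h0 : σ 0 = 0 := pP_zero.mp hσ 0 (by rw [hκ]; decide)
      have h1 : σ 1 = 0 := pP_zero.mp hσ 1 (by rw [hκ]; decide)
      refine ext5 fun j => ?_
      rw [Rt_coord, hc, hs, hb]
      simp only [zero_mul, Real.cos_zero, Real.sin_zero, eb_coord, h0, h1]
      fin_cases j <;> simp [h0, h1]
    have r0 : Rt a b (Real.pi / 2 / a) (eb 0) = eb 1 := by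
      refine ext5 fun j => ?_
      rw [Rt_coord, hc, hs, hb]
      simp only [zero_mul, Real.cos_zero, Real.sin_zero, eb_coord]
      fin_cases j <;> simp
    have r1 : Rt a b (Real.pi / 2 / a) (eb 1) = -(eb 0) := by
      refine ext5 fun j => ?_
      show _ = -((eb 0 : E5) j)
      rw [Rt_coord, hc, hs, hb]
      simp only [zero_mul, Real.cos_zero, Real.sin_zero, eb_coord]
      fin_cases j <;> simp
    refine frm2 hS.cyl (i := 0) (j := 1) (by decide) hκ ?_ ?_
    · intro σ hσ hσ0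
      have h := hS.inv (Real.pi / 2 / a) σ hσ0 (eb 0) (eb 0)
      rw [hfix σ hσ, r0] at h
      exact h.symm
    · intro σ hσ hσ0
      have h := hS.inv (Real.pi / 2 / a) σ hσ0 (eb 0) (eb 1)
      rw [hfix σ hσ, r0, r1, map_neg] at h
      have h2 := hS.cyl.metric.symm σ hσ0 (eb 1) (eb 0)
      linarith
  · have hc : Real.cos (b * (Real.pi / 2 / b)) = 0 := by
      rw [mul_div_cancel₀ _ hb, Real.cos_pi_div_two]
    have hs : Real.sin (b * (Real.pi / 2 / b)) = 1 := by
      rw [mul_div_cancel₀ _ hb, Real.sin_pi_div_two]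
    have hfix : ∀ σ : E5, pP κ σ = 0 → Rt a b (Real.pi / 2 / b) σ = σ := by
      intro σ hσ
      have h0 : σ 2 = 0 := pP_zero.mp hσ 2 (by rw [hκ]; decide)
      have h1 : σ 3 = 0 := pP_zero.mp hσ 3 (by rw [hκ]; decide)
      refine ext5 fun j => ?_
      rw [Rt_coord, hc, hs, ha]
      simp only [zero_mul, Real.cos_zero, Real.sin_zero, eb_coord, h0, h1]
      fin_cases j <;> simp [h0, h1]
    have r0 : Rt a b (Real.pi / 2 / b) (eb 2) = eb 3 := by
      refine ext5 fun j => ?_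
      rw [Rt_coord, hc, hs, ha]
      simp only [zero_mul, Real.cos_zero, Real.sin_zero, eb_coord]
      fin_cases j <;> simp
    have r1 : Rt a b (Real.pi / 2 / b) (eb 3) = -(eb 2) := by
      refine ext5 fun j => ?_
      show _ = -((eb 2 : E5) j)
      rw [Rt_coord, hc, hs, ha]
      simp only [zero_mul, Real.cos_zero, Real.sin_zero, eb_coord]
      fin_cases j <;> simp
    refine frm2 hS.cyl (i := 2) (j := 3) (by decide) hκ ?_ ?_
    · intro σ hσ hσ0
      have h := hS.inv (Real.pi / 2 / b) σ hσ0 (eb 2) (eb 2)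
      rw [hfix σ hσ, r0] at h
      exact h.symm
    · intro σ hσ hσ0
      have h := hS.inv (Real.pi / 2 / b) σ hσ0 (eb 2) (eb 3)
      rw [hfix σ hσ, r0, r1, map_neg] at h
      have h2 := hS.cyl.metric.symm σ hσ0 (eb 3) (eb 2)
      linarith

end Pool.Agent.MVS.H77
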